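import Pool.Agent.J4H56.FC.Box

/-!
# MP_30d25d_nt: infinitely many representations as a sum of four integer cubes

`S(m)` is infinite for every `m` not congruent to `±4 (mod 9)`; for `m ≡ ±4 (mod 9)` it is finite
only if every solution is small, and for each solution `(x+y)(z+w) > 0` or `x = y`, `z = w`.
-/

namespace Pool.Agent.Results.MP_30d25d_nt.FinitenessCriterion

open Pool.Agent.J4H56.FC

/-- The set of representations of `m` as a sum of four integer cubes is finite if and only if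
`m ≡ ±4 (mod 9)` and every representation `m = x³ + y³ + z³ + w³` has `3x² - 3|x| + 2 ≤ |m|` and
`(x+y)(z+w) > 0` or (`x = y` and `z = w`). -/
theorem result (m : ℤ) :
    {p : ℤ × ℤ × ℤ × ℤ | p.1 ^ 3 + p.2.1 ^ 3 + p.2.2.1 ^ 3 + p.2.2.2 ^ 3 = m}.Finite ↔
      (m % 9 = 4 ∨ m % 9 = 5) ∧ ∀ x y z w : ℤ, x ^ 3 + y ^ 3 + z ^ 3 + w ^ 3 = m →
        3 * x ^ 2 - 3 * |x| + 2 ≤ |m| ∧ (0 < (x + y) * (z + w) ∨ (x = y ∧ z = w)) := by
  change (S m).Finite ↔ _
  constructor
  · intro hf
    have hm : m % 9 = 4 ∨ m % 9 = 5 := by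
      by_contra hno
      push Not at hno
      exact infinite_of_mod hno.1 hno.2 hf
    refine ⟨hm, fun x y z w h => ⟨?_, ?_⟩⟩
    · by_contra hlt
      push Not at hlt
      exact (infinite_iff m).2 ⟨x, y, z, w, h, hlt⟩ hf
    · by_contra hno
      push Not at hno
      obtain ⟨h1, h2⟩ := hno
      have h3 := all_mod3 hm h
      have n1 : x + y ≠ 0 := by rcases h3 with h3 | h3 <;> omega
      have n2 : z + w ≠ 0 := by rcases h3 with h3 | h3 <;> omega
      have hn : (x + y) * (z + w) < 0 := lt_of_le_of_ne h1 (mul_ne_zero n1 n2)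
      exact (infinite_iff_neg hm).2 ⟨x, y, z, w, h, hn, fun h4 => h2 h4.1 h4.2⟩ hf
  · rintro ⟨-, h⟩
    refine (box_finite m).subset ?_
    rintro ⟨x, y, z, w⟩ h0
    simp only [S, Set.mem_ofPred_eq] at h0
    exact ⟨(h x y z w h0).1, (h y x z w (by linarith)).1, (h z x y w (by linarith)).1,
      (h w x y z (by linarith)).1⟩

end Pool.Agent.Results.MP_30d25d_nt.FinitenessCriterion
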